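import Pool.Agent.H20.SemiC

set_option autoImplicit false

namespace Pool.Agent.Results.MP_311bfa_al.NoExtension

/-- There are a Hausdorff topological ring `R` (with identity) and a monoid `G` such that no
Hausdorff ring topology on the semigroup ring `RG` induces the given topology on `R`. -/
theorem result : ∃ (R : Type) (_ : Ring R) (τ₀ : TopologicalSpace R),
    @IsTopologicalRing R τ₀ _ ∧ @T2Space R τ₀ ∧ ∃ (G : Type) (_ : Monoid G),
      ¬ ∃ τ : TopologicalSpace (MonoidAlgebra R G), @IsTopologicalRing (MonoidAlgebra R G) τ _ ∧
        @T2Space (MonoidAlgebra R G) τ ∧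
        TopologicalSpace.induced (fun r : R => MonoidAlgebra.single (1 : G) r) τ = τ₀ :=
  Pool.Agent.H20.SemiRing.final

end Pool.Agent.Results.MP_311bfa_al.NoExtension
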